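import Mathlib

open scoped Pointwise

namespace Pool.Agent.H89.Mirror

/-- The index set `I = {(i,j) : 1 ≤ i ≤ p, 1 ≤ j ≤ q_i}`. -/
abbrev Idx {p : ℕ} (q : Fin p → ℕ) : Type := (i : Fin p) × Fin (q i)

variable {d p : ℕ} {q : Fin p → ℕ}

/-- The linear map `V`, evaluated at `k ≥ 0`: `V k = ∑ k_ij v_ij`. -/
def Vsum (v : Idx q → Fin d → ℤ) (k : Idx q →₀ ℕ) : Fin d → ℤ :=
  ∑ ij, (k ij) • v ij

/-- `C(k) = ∏_l comb(k_{l1}, …, k_{l q_l})`. -/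
def C (k : Idx q →₀ ℕ) : ℕ :=
  ∏ l, Nat.multinomial Finset.univ (fun j : Fin (q l) => k ⟨l, j⟩)

/-- `φ_0 = ∑_{k ∈ K_0} C(k) z^k`. -/
noncomputable def phi0 (v : Idx q → Fin d → ℤ) : MvPowerSeries (Idx q) ℚ :=
  fun k => if Vsum v k = 0 then (C k : ℚ) else 0

/-- `φ_ij = ∑_{k ∈ K_0} C(k) (H(∑_m k_im) - H(k_ij)) z^k`. -/
noncomputable def phi (v : Idx q → Fin d → ℤ) (ij : Idx q) : MvPowerSeries (Idx q) ℚ :=
  fun k => if Vsum v k = 0 then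
    (C k : ℚ) * (harmonic (∑ m, k ⟨ij.1, m⟩) - harmonic (k ij)) else 0

/-- `log ψ_ij = φ_ij / φ_0`. -/
noncomputable def logPsi (v : Idx q → Fin d → ℤ) (ij : Idx q) : MvPowerSeries (Idx q) ℚ :=
  phi v ij * (phi0 v)⁻¹

/-- `Δ_i`, the convex hull of `0, v_i1, …, v_iq_i` in `ℝ^d`. -/
def polytope (v : Idx q → Fin d → ℤ) (i : Fin p) : Set (Fin d → ℝ) :=
  convexHull ℝ (insert 0 (Set.range fun (j : Fin (q i)) (t : Fin d) => (v ⟨i, j⟩ t : ℝ)))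

/-- `Δ = Δ_1 + … + Δ_p` (Minkowski sum). -/
def Delta (v : Idx q → Fin d → ℤ) : Set (Fin d → ℝ) := ∑ i, polytope v i

/-- The standing assumptions: `0` is in the interior of `Δ`, the `v_ij` span `ℤ^d`. -/
structure Standing (v : Idx q → Fin d → ℤ) : Prop where
  zero_mem : (0 : Fin d → ℝ) ∈ interior (Delta v)
  span_eq : Submodule.span ℤ (Set.range v) = ⊤

/-- `0` is the only lattice point in the interior of `Δ`. -/
def Fano (v : Idx q → Fin d → ℤ) : Prop :=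
  ∀ m : Fin d → ℤ, ((fun t => (m t : ℝ)) ∈ interior (Delta v)) → m = 0

end Pool.Agent.H89.Mirror
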