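import Mathlib

/-! Counting words with given content. -/

namespace Pool.Agent.H89.Words

open Finset

variable {α : Type*} [DecidableEq α] [Fintype α]

/-- all words with content `s` -/
def wds (s : Multiset α) : Finset (List α) := s.lists.toFinset

omit [Fintype α] in
lemma mem_wds {s : Multiset α} {l : List α} : l ∈ wds s ↔ (l : Multiset α) = s := by
  unfold wds
  rw [Multiset.mem_toFinset, Multiset.mem_lists_iff]
  constructor
  · intro h; exact h.symm
  · intro h; exact h.symm

/-- the multinomial coefficient of the content `s` -/
def mn (s : Multiset α) : ℕ := Nat.multinomial Finset.univ (fun a => s.count a)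

lemma mn_spec (s : Multiset α) :
    (∏ a, (s.count a).factorial) * mn s = (Multiset.card s).factorial := by
  unfold mn
  rw [Nat.multinomial_spec]
  congr 1
  exact Multiset.sum_count_eq_card (fun a _ => Finset.mem_univ a)

lemma mn_erase {s : Multiset α} {x : α} (hx : x ∈ s) :
    Multiset.card s * mn (s.erase x) = s.count x * mn s := by
  have h1 := mn_spec s
  have h2 := mn_spec (s.erase x)
  have hc : 0 < Multiset.card s := Multiset.card_pos_iff_exists_mem.mpr ⟨x, hx⟩
  rw [Multiset.card_erase_of_mem hx, Nat.pred_eq_sub_one] at h2
  have hcount : 0 < s.count x := Multiset.count_pos.mpr hx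
  have hprod : (∏ a, (s.count a).factorial) = s.count x * ∏ a, ((s.erase x).count a).factorial := by
    rw [← Finset.mul_prod_erase _ _ (Finset.mem_univ x),
      ← Finset.mul_prod_erase _ (fun a => ((s.erase x).count a).factorial) (Finset.mem_univ x)]
    have : ∏ a ∈ univ.erase x, ((s.erase x).count a).factorial =
        ∏ a ∈ univ.erase x, (s.count a).factorial := by
      apply Finset.prod_congr rfl
      intro a ha
      rw [Multiset.count_erase_of_ne (Finset.ne_of_mem_erase ha)]
    rw [this, Multiset.count_erase_self, ← mul_assoc, Nat.mul_factorial_pred (by omega)]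
  have hpos : 0 < ∏ a, ((s.erase x).count a).factorial :=
    Finset.prod_pos (fun a _ => Nat.factorial_pos _)
  have h3 : (Multiset.card s).factorial = Multiset.card s * (Multiset.card s - 1).factorial :=
    (Nat.mul_factorial_pred (by omega)).symm
  rw [hprod, h3] at h1
  have h1' : (∏ a, ((s.erase x).count a).factorial) * (s.count x * mn s) =
      Multiset.card s * (Multiset.card s - 1).factorial := by
    rw [← h1]; ring
  have h2' : (∏ a, ((s.erase x).count a).factorial) * (Multiset.card s * mn (s.erase x)) =
      Multiset.card s * (Multiset.card s - 1).factorial := by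
    rw [← h2]; ring
  exact Nat.eq_of_mul_eq_mul_left hpos (h2'.trans h1'.symm)

omit [Fintype α] in
lemma sum_wds (s : Multiset α) (hs : s ≠ 0) (F : List α → ℚ) :
    ∑ l ∈ wds s, F l = ∑ x ∈ s.toFinset, ∑ l ∈ wds (s.erase x), F (l ++ [x]) := by
  rw [Finset.sum_sigma']
  symm
  apply Finset.sum_bij (fun (p : (_ : α) × List α) _ => p.2 ++ [p.1])
  · rintro ⟨x, l⟩ h
    simp only [Finset.mem_sigma, Multiset.mem_toFinset, mem_wds] at h
    rw [mem_wds]
    rw [← Multiset.coe_add, Multiset.coe_singleton, h.2, add_comm, Multiset.singleton_add,
      Multiset.cons_erase h.1]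
  · rintro ⟨x, l⟩ _ ⟨y, l'⟩ _ h
    have := List.append_inj' h rfl
    simp at this
    obtain ⟨h1, h2⟩ := this
    subst h1; subst h2; rfl
  · intro l hl
    rw [mem_wds] at hl
    rcases List.eq_nil_or_concat l with rfl | ⟨l', x, rfl⟩
    · exact absurd hl.symm hs
    · refine ⟨⟨x, l'⟩, ?_, ?_⟩
      · simp only [Finset.mem_sigma, Multiset.mem_toFinset, mem_wds]
        rw [List.concat_eq_append, ← Multiset.coe_add, Multiset.coe_singleton, add_comm,
          Multiset.singleton_add] at hl
        constructor
        · rw [← hl]; exact Multiset.mem_cons_self _ _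
        · rw [← hl]; simp
      · simp
  · rintro ⟨x, l⟩ _
    rfl

lemma card_wds (s : Multiset α) : ((wds s).card : ℚ) = mn s := by
  induction s using Multiset.strongInductionOn with
  | ih s ih =>
    by_cases hs : s = 0
    · subst hs
      have : wds (0 : Multiset α) = {[]} := by
        ext l
        rw [mem_wds]
        simp
      rw [this]
      simp [mn, Nat.multinomial]
    · have hn : (Multiset.card s : ℚ) ≠ 0 := by
        simpa using hs
      rw [Finset.card_eq_sum_ones]
      push_cast
      rw [sum_wds s hs]
      have : ∀ x ∈ s.toFinset, (∑ l ∈ wds (s.erase x), (1 : ℚ)) =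
          (s.count x : ℚ) * mn s / Multiset.card s := by
        intro x hx
        rw [Multiset.mem_toFinset] at hx
        have h1 := ih (s.erase x) (Multiset.erase_lt.mpr hx)
        rw [Finset.card_eq_sum_ones] at h1
        push_cast at h1
        rw [h1, eq_div_iff hn]
        have := mn_erase hx
        rw [mul_comm]
        exact_mod_cast this
      rw [Finset.sum_congr rfl this, ← Finset.sum_div, ← Finset.sum_mul]
      have h2 : ∑ x ∈ s.toFinset, (s.count x : ℚ) = Multiset.card s := by
        exact_mod_cast Multiset.toFinset_sum_count_eq s
      rw [h2]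
      field_simp

/-- `∑ 1/r` over the `r ≤ |l|` such that the first `r` letters of `l` are not `j` -/
def hj (j : α) (l : List α) : ℚ :=
  ∑ r ∈ Finset.range l.length, if j ∈ l.take (r + 1) then 0 else ((r : ℚ) + 1)⁻¹

omit [Fintype α] in
lemma hj_append (j : α) (l : List α) (x : α) :
    hj j (l ++ [x]) = hj j l + if j ∈ l ++ [x] then 0 else ((l.length : ℚ) + 1)⁻¹ := by
  unfold hj
  rw [List.length_append, List.length_singleton, Finset.sum_range_succ]
  congr 1
  · apply Finset.sum_congr rfl
    intro r hr
    rw [Finset.mem_range] at hr
    rw [List.take_append_of_le_length (by omega)]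
  · rw [List.take_of_length_le (by simp)]

lemma sum_hj (j : α) (s : Multiset α) :
    ∑ l ∈ wds s, hj j l = (mn s : ℚ) * (harmonic (Multiset.card s) - harmonic (s.count j)) := by
  induction s using Multiset.strongInductionOn with
  | ih s ih =>
    by_cases hs : s = 0
    · subst hs
      have : wds (0 : Multiset α) = {[]} := by
        ext l
        rw [mem_wds]
        simp
      rw [this]
      simp [hj]
    · have hn0 : 0 < Multiset.card s := by
        rw [Multiset.card_pos]; exact hs
      have hn : (Multiset.card s : ℚ) ≠ 0 := by
        simpa using hs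
      rw [sum_wds s hs]
      obtain ⟨n, hn'⟩ : ∃ n, Multiset.card s = n + 1 := ⟨Multiset.card s - 1, by omega⟩
      have key : ∀ x ∈ s.toFinset, (∑ l ∈ wds (s.erase x), hj j (l ++ [x])) =
          (s.count x : ℚ) * mn s / Multiset.card s *
            (harmonic (n + 1) - harmonic (s.count j)) + (if x = j then mn s / (Multiset.card s : ℚ) else 0)
            - (s.count x : ℚ) * mn s / Multiset.card s * (if j ∈ s then ((n : ℚ) + 1)⁻¹ else 0) := by
        intro x hx
        rw [Multiset.mem_toFinset] at hx
        have h1 := ih (s.erase x) (Multiset.erase_lt.mpr hx)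
        have hcard : Multiset.card (s.erase x) = n := by
          rw [Multiset.card_erase_of_mem hx, hn']; rfl
        have hmn : (mn (s.erase x) : ℚ) = (s.count x : ℚ) * mn s / Multiset.card s := by
          rw [eq_div_iff hn]
          have := mn_erase hx
          rw [mul_comm]
          exact_mod_cast this
        have h2 : ∀ l ∈ wds (s.erase x), hj j (l ++ [x]) =
            hj j l + if j ∈ s then 0 else ((n : ℚ) + 1)⁻¹ := by
          intro l hl
          rw [mem_wds] at hl
          rw [hj_append]
          have hlen : l.length = n := by
            rw [← hcard, ← hl]; simp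
          have hmem : j ∈ l ++ [x] ↔ j ∈ s := by
            have : ((l ++ [x] : List α) : Multiset α) = s := by
              rw [← Multiset.coe_add, Multiset.coe_singleton, hl, add_comm,
                Multiset.singleton_add, Multiset.cons_erase hx]
            rw [← this, Multiset.mem_coe]
          rw [hlen]
          simp only [hmem]
        rw [Finset.sum_congr rfl h2, Finset.sum_add_distrib, h1, hcard, Finset.sum_const,
          nsmul_eq_mul, card_wds, hmn]
        by_cases hxj : x = j
        · subst hxj
          have hc : 0 < s.count x := Multiset.count_pos.mpr hx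
          obtain ⟨c, hc'⟩ : ∃ c, s.count x = c + 1 := ⟨s.count x - 1, by omega⟩
          rw [Multiset.count_erase_self, hc']
          simp only [if_true, hx, Nat.add_sub_cancel, harmonic_succ, hn']
          push_cast
          have e1 : (n : ℚ) + 1 ≠ 0 := by positivity
          have e2 : (c : ℚ) + 1 ≠ 0 := by positivity
          field_simp
          ring
        · rw [Multiset.count_erase_of_ne (Ne.symm hxj)]
          rw [if_neg hxj, harmonic_succ]
          by_cases hjs : j ∈ s
          · simp only [hjs, if_true]
            push_cast
            ring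
          · simp only [hjs, if_false]
            push_cast
            ring
      rw [Finset.sum_congr rfl key, Finset.sum_sub_distrib, Finset.sum_add_distrib,
        ← Finset.sum_mul, ← Finset.sum_mul, ← Finset.sum_div, ← Finset.sum_mul]
      have h2 : ∑ x ∈ s.toFinset, (s.count x : ℚ) = Multiset.card s := by
        exact_mod_cast Multiset.toFinset_sum_count_eq s
      rw [h2, Finset.sum_ite_eq']
      simp only [Multiset.mem_toFinset]
      rw [hn']
      push_cast
      have e1 : (n : ℚ) + 1 ≠ 0 := by positivity
      by_cases hjs : j ∈ s
      · simp only [hjs, if_true]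
        field_simp
        ring
      · simp only [hjs, if_false]
        field_simp
        ring

end Pool.Agent.H89.Words
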