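import Pool.Agent.H89.MirrorDefs
import Pool.Agent.H89.MirrorWords

/-! Non-negativity of `φ_ij / φ_0` under a separation hypothesis. -/

namespace Pool.Agent.H89.Mirror

open Finset Pool.Agent.H89.Words

variable {d p : ℕ} {q : Fin p → ℕ}

/-- `p`-tuples of words -/
abbrev W (q : Fin p → ℕ) : Type := (i : Fin p) → List (Fin (q i))

/-- the content of a tuple of words -/
noncomputable def cont (w : W q) : Idx q →₀ ℕ :=
  Finsupp.equivFunOnFinite.symm (fun ij => (w ij.1).count ij.2)

lemma cont_apply (w : W q) (i : Fin p) (j : Fin (q i)) : cont w ⟨i, j⟩ = (w i).count j := rfl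

/-- the multiset with multiplicities `k_{i1}, k_{i2}, …` -/
def ms (k : Idx q →₀ ℕ) (i : Fin p) : Multiset (Fin (q i)) := ∑ j, k ⟨i, j⟩ • {j}

lemma count_ms (k : Idx q →₀ ℕ) (i : Fin p) (j : Fin (q i)) : (ms k i).count j = k ⟨i, j⟩ := by
  unfold ms
  rw [Multiset.count_sum']
  simp [Multiset.count_nsmul, Multiset.count_singleton]

lemma card_ms (k : Idx q →₀ ℕ) (i : Fin p) : Multiset.card (ms k i) = ∑ j, k ⟨i, j⟩ := by
  unfold ms
  simp

/-- all tuples of words with content `k` -/
def T (k : Idx q →₀ ℕ) : Finset (W q) := Fintype.piFinset (fun i => wds (ms k i))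

lemma mem_T {k : Idx q →₀ ℕ} {w : W q} : w ∈ T k ↔ cont w = k := by
  unfold T
  rw [Fintype.mem_piFinset]
  constructor
  · intro h
    ext ⟨i, j⟩
    rw [cont_apply, ← Multiset.coe_count, mem_wds.mp (h i), count_ms]
  · rintro rfl i
    rw [mem_wds]
    ext j
    rw [count_ms, cont_apply, Multiset.coe_count]

lemma mn_ms (k : Idx q →₀ ℕ) (i : Fin p) :
    mn (ms k i) = Nat.multinomial Finset.univ (fun j : Fin (q i) => k ⟨i, j⟩) := by
  unfold mn
  simp only [count_ms]

lemma card_T (k : Idx q →₀ ℕ) : ((T k).card : ℚ) = C k := by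
  unfold T C
  rw [Fintype.card_piFinset]
  push_cast
  apply Finset.prod_congr rfl
  intro i _
  rw [card_wds, mn_ms]

lemma length_of_mem_T {k : Idx q →₀ ℕ} {w : W q} (h : w ∈ T k) (i : Fin p) :
    (w i).length = ∑ j, k ⟨i, j⟩ := by
  unfold T at h
  rw [Fintype.mem_piFinset] at h
  rw [← card_ms, ← mem_wds.mp (h i)]
  rfl

lemma sum_T_hj (k : Idx q →₀ ℕ) (i : Fin p) (j : Fin (q i)) :
    ∑ w ∈ T k, hj j (w i) = (C k : ℚ) * (harmonic (∑ m, k ⟨i, m⟩) - harmonic (k ⟨i, j⟩)) := by
  classical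
  have h := Finset.prod_univ_sum (fun l => wds (ms k l))
    (Function.update (fun l (_ : List (Fin (q l))) => (1 : ℚ)) i (hj j))
  have h1 : ∀ w : W q, ∏ l, (Function.update (fun l (_ : List (Fin (q l))) => (1 : ℚ)) i (hj j))
      l (w l) = hj j (w i) := by
    intro w
    rw [Finset.prod_eq_single i]
    · rw [Function.update_self]
    · intro l _ hl
      rw [Function.update_of_ne hl]
    · intro h
      exact absurd (Finset.mem_univ _) h
  simp only [h1] at h
  unfold T
  rw [← h, ← Finset.mul_prod_erase _ _ (Finset.mem_univ i), Function.update_self, sum_hj,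
    count_ms, card_ms]
  have h2 : ∏ l ∈ Finset.univ.erase i, ∑ x ∈ wds (ms k l),
      (Function.update (fun l (_ : List (Fin (q l))) => (1 : ℚ)) i (hj j)) l x =
      ∏ l ∈ Finset.univ.erase i, (mn (ms k l) : ℚ) := by
    apply Finset.prod_congr rfl
    intro l hl
    rw [Function.update_of_ne (Finset.ne_of_mem_erase hl), Finset.sum_const, nsmul_eq_mul, mul_one,
      card_wds]
  rw [h2]
  have h3 : (C k : ℚ) = mn (ms k i) * ∏ l ∈ Finset.univ.erase i, (mn (ms k l) : ℚ) := by
    rw [Finset.mul_prod_erase Finset.univ (fun l => (mn (ms k l) : ℚ)) (Finset.mem_univ i)]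
    unfold C
    push_cast
    apply Finset.prod_congr rfl
    intro l _
    rw [mn_ms]
  rw [h3]
  ring

/-- concatenation of tuples of words -/
def app (w w' : W q) : W q := fun i => w i ++ w' i

/-- componentwise prefixes -/
def tk (ρ : Fin p → ℕ) (w : W q) : W q := fun i => (w i).take (ρ i)

/-- componentwise suffixes -/
def dr (ρ : Fin p → ℕ) (w : W q) : W q := fun i => (w i).drop (ρ i)

lemma app_tk_dr (ρ : Fin p → ℕ) (w : W q) : app (tk ρ w) (dr ρ w) = w := by
  funext i
  exact List.take_append_drop _ _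

lemma cont_app (w w' : W q) : cont (app w w') = cont w + cont w' := by
  ext ⟨i, j⟩
  rw [Finsupp.add_apply, cont_apply, cont_apply, cont_apply]
  exact List.count_append

lemma Vsum_add (v : Idx q → Fin d → ℤ) (k k' : Idx q →₀ ℕ) :
    Vsum v (k + k') = Vsum v k + Vsum v k' := by
  unfold Vsum
  rw [← Finset.sum_add_distrib]
  apply Finset.sum_congr rfl
  intro ij _
  rw [Finsupp.add_apply, add_smul]

/-- the total sum of a tuple of words -/
noncomputable def S (v : Idx q → Fin d → ℤ) (w : W q) : Fin d → ℤ := Vsum v (cont w)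

lemma S_app (v : Idx q → Fin d → ℤ) (w w' : W q) : S v (app w w') = S v w + S v w' := by
  unfold S
  rw [cont_app, Vsum_add]

/-- Two nonnegative integral combinations of the vectors of two disjoint sets of groups can only
agree if they vanish. -/
def Separated (v : Idx q → Fin d → ℤ) : Prop :=
  ∀ k k' : Idx q →₀ ℕ, (∀ i, (∀ j, k ⟨i, j⟩ = 0) ∨ (∀ j, k' ⟨i, j⟩ = 0)) →
    Vsum v k = Vsum v k' → Vsum v k = 0

lemma S_tk_inf {v : Idx q → Fin d → ℤ} (hv : Separated v) (w : W q) (ρ ρ' : Fin p → ℕ)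
    (h : S v (tk ρ w) = 0) (h' : S v (tk ρ' w) = 0) : S v (tk (ρ ⊓ ρ') w) = 0 := by
  have e1 : app (tk (ρ ⊓ ρ') w) (dr (ρ ⊓ ρ') (tk ρ w)) = tk ρ w := by
    have : tk (ρ ⊓ ρ') w = tk (ρ ⊓ ρ') (tk ρ w) := by
      funext i
      change (w i).take _ = ((w i).take _).take _
      rw [List.take_take]
      congr 1
      simp
    rw [this, app_tk_dr]
  have e2 : app (tk (ρ ⊓ ρ') w) (dr (ρ ⊓ ρ') (tk ρ' w)) = tk ρ' w := by
    have : tk (ρ ⊓ ρ') w = tk (ρ ⊓ ρ') (tk ρ' w) := by
      funext i
      change (w i).take _ = ((w i).take _).take _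
      rw [List.take_take]
      congr 1
      simp
    rw [this, app_tk_dr]
  have f1 := S_app v (tk (ρ ⊓ ρ') w) (dr (ρ ⊓ ρ') (tk ρ w))
  have f2 := S_app v (tk (ρ ⊓ ρ') w) (dr (ρ ⊓ ρ') (tk ρ' w))
  rw [e1, h] at f1
  rw [e2, h'] at f2
  have f3 : S v (dr (ρ ⊓ ρ') (tk ρ w)) = 0 := by
    apply hv _ (cont (dr (ρ ⊓ ρ') (tk ρ' w)))
    · intro i
      rcases le_total (ρ i) (ρ' i) with hle | hle
      · left
        intro j
        rw [cont_apply]
        have : dr (ρ ⊓ ρ') (tk ρ w) i = [] := by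
          change ((w i).take _).drop _ = []
          apply List.drop_of_length_le
          simp only [Pi.inf_apply, inf_of_le_left hle, List.length_take]
          exact min_le_left _ _
        rw [this]
        rfl
      · right
        intro j
        rw [cont_apply]
        have : dr (ρ ⊓ ρ') (tk ρ' w) i = [] := by
          change ((w i).take _).drop _ = []
          apply List.drop_of_length_le
          simp only [Pi.inf_apply, inf_of_le_right hle, List.length_take]
          exact min_le_left _ _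
        rw [this]
        rfl
    · change S v (dr (ρ ⊓ ρ') (tk ρ w)) = S v (dr (ρ ⊓ ρ') (tk ρ' w))
      have := f1.symm.trans f2
      exact add_left_cancel this
  rw [f3, add_zero] at f1
  exact f1.symm

/-- `w` is closed, has at least `r` letters in group `i`, and no proper prefix with at least `r`
letters in group `i` is closed. -/
def Irr (v : Idx q → Fin d → ℤ) (i : Fin p) (r : ℕ) (w : W q) : Prop :=
  S v w = 0 ∧ r ≤ (w i).length ∧ ∀ ρ : Fin p → ℕ, (∀ l, ρ l ≤ (w l).length) → r ≤ ρ i →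
    S v (tk ρ w) = 0 → ∀ l, ρ l = (w l).length

open Classical in
/-- the set of irreducible tuples whose first `r` letters in group `i` are not `j` -/
noncomputable def IrrSet (v : Idx q → Fin d → ℤ) (i : Fin p) (j : Fin (q i)) (r : ℕ)
    (k : Idx q →₀ ℕ) : Finset (W q) :=
  (T k).filter (fun w => Irr v i r w ∧ j ∉ (w i).take r)

lemma tk_app_of_le (ρ : Fin p → ℕ) (w w' : W q) (h : ∀ l, ρ l ≤ (w l).length) :
    tk ρ (app w w') = tk ρ w := by
  funext l
  change (w l ++ w' l).take _ = (w l).take _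
  rw [List.take_append_of_le_length (h l)]

lemma tk_length (w : W q) : tk (fun l => (w l).length) w = w := by
  funext l
  change (w l).take _ = _
  rw [List.take_length]

lemma app_inj {v : Idx q → Fin d → ℤ} (hv : Separated v) {i : Fin p} {r : ℕ} {w w' u u' : W q}
    (hw : Irr v i r w) (hu : Irr v i r u) (h : app w w' = app u u') : w = u ∧ w' = u' := by
  have hμ : S v (tk ((fun l => (w l).length) ⊓ (fun l => (u l).length)) (app w w')) = 0 := by
    apply S_tk_inf hv
    · rw [tk_app_of_le _ _ _ (fun l => le_refl _), tk_length]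
      exact hw.1
    · rw [h, tk_app_of_le _ _ _ (fun l => le_refl _), tk_length]
      exact hu.1
  have h1 := hw.2.2 ((fun l => (w l).length) ⊓ (fun l => (u l).length))
    (fun l => inf_le_left) (le_inf hw.2.1 hu.2.1) (by
      have e := tk_app_of_le ((fun l => (w l).length) ⊓ (fun l => (u l).length)) w w'
        (fun l => inf_le_left)
      rw [e] at hμ
      exact hμ)
  have h2 := hu.2.2 ((fun l => (w l).length) ⊓ (fun l => (u l).length))
    (fun l => inf_le_right) (le_inf hw.2.1 hu.2.1) (by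
      have e := tk_app_of_le ((fun l => (w l).length) ⊓ (fun l => (u l).length)) u u'
        (fun l => inf_le_right)
      rw [h, e] at hμ
      exact hμ)
  have h3 : ∀ l, (w l).length = (u l).length := fun l => (h1 l).symm.trans (h2 l)
  constructor
  · funext l
    exact (List.append_inj (congrFun h l) (h3 l)).1
  · funext l
    exact (List.append_inj (congrFun h l) (h3 l)).2

lemma exists_decomp (v : Idx q → Fin d → ℤ) {i : Fin p} {r : ℕ} {w : W q}
    (hw : S v w = 0) (hr : r ≤ (w i).length) :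
    ∃ ρ : Fin p → ℕ, (∀ l, ρ l ≤ (w l).length) ∧ r ≤ ρ i ∧ Irr v i r (tk ρ w) ∧
      S v (dr ρ w) = 0 := by
  classical
  have hne : ∃ n, ∃ ρ : Fin p → ℕ, (∑ l, ρ l = n) ∧ (∀ l, ρ l ≤ (w l).length) ∧ r ≤ ρ i ∧
      S v (tk ρ w) = 0 :=
    ⟨_, (fun l => (w l).length), rfl, fun l => le_refl _, hr, by rw [tk_length]; exact hw⟩
  obtain ⟨ρ, hsum, hle, hri, hS⟩ := Nat.find_spec hne
  refine ⟨ρ, hle, hri, ?_, ?_⟩
  · have hlen : ∀ l, (tk ρ w l).length = ρ l := by
      intro l
      change ((w l).take (ρ l)).length = _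
      rw [List.length_take]
      exact min_eq_left (hle l)
    refine ⟨hS, by rw [hlen]; exact hri, ?_⟩
    intro ρ' hρ' hr' hS' l
    have hle' : ∀ l, ρ' l ≤ ρ l := fun l => by
      have := hρ' l
      rwa [hlen] at this
    have e : tk ρ' (tk ρ w) = tk ρ' w := by
      funext l
      change ((w l).take _).take _ = _
      rw [List.take_take, min_eq_left (hle' l)]
      rfl
    rw [e] at hS'
    have hmin : Nat.find hne ≤ ∑ l, ρ' l :=
      Nat.find_min' hne ⟨ρ', rfl, fun l => (hle' l).trans (hle l), hr', hS'⟩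
    rw [hlen]
    by_contra hcon
    have hlt : ρ' l < ρ l := lt_of_le_of_ne (hle' l) hcon
    have : ∑ l, ρ' l < ∑ l, ρ l :=
      Finset.sum_lt_sum (fun l _ => hle' l) ⟨l, Finset.mem_univ _, hlt⟩
    omega
  · have := S_app v (tk ρ w) (dr ρ w)
    rw [app_tk_dr, hw, hS, zero_add] at this
    exact this.symm

open Classical in
lemma card_decomp {v : Idx q → Fin d → ℤ} (hv : Separated v) (i : Fin p) (j : Fin (q i)) (r : ℕ)
    (k : Idx q →₀ ℕ) (hk : Vsum v k = 0) :
    (((T k).filter (fun w => r ≤ (w i).length ∧ j ∉ (w i).take r)).card : ℚ) =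
      ∑ c ∈ Finset.HasAntidiagonal.antidiagonal k, ((IrrSet v i j r c.1).card : ℚ) *
        (if Vsum v c.2 = 0 then (C c.2 : ℚ) else 0) := by
  have hcard : ((Finset.HasAntidiagonal.antidiagonal k).sigma (fun c => IrrSet v i j r c.1 ×ˢ
      ((T c.2).filter (fun _ => Vsum v c.2 = 0)))).card =
      ((T k).filter (fun w => r ≤ (w i).length ∧ j ∉ (w i).take r)).card := by
    apply Finset.card_bij (fun x _ => app x.2.1 x.2.2)
    · rintro ⟨⟨c, c'⟩, ⟨w, w'⟩⟩ hx
      simp only [Finset.mem_sigma, Finset.HasAntidiagonal.mem_antidiagonal, Finset.mem_product,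
        IrrSet, Finset.mem_filter, mem_T] at hx
      obtain ⟨hc, ⟨hw, hirr, hj⟩, hw', hc'⟩ := hx
      simp only [Finset.mem_filter, mem_T, cont_app]
      refine ⟨by rw [hw, hw', hc], ?_, ?_⟩
      · change r ≤ (w i ++ w' i).length
        rw [List.length_append]
        have := hirr.2.1
        omega
      · change j ∉ (w i ++ w' i).take r
        rw [List.take_append_of_le_length hirr.2.1]
        exact hj
    · rintro ⟨⟨c, c'⟩, ⟨w, w'⟩⟩ hx ⟨⟨b, b'⟩, ⟨u, u'⟩⟩ hy h
      simp only [Finset.mem_sigma, Finset.HasAntidiagonal.mem_antidiagonal, Finset.mem_product,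
        IrrSet, Finset.mem_filter, mem_T] at hx hy
      obtain ⟨h1, h2⟩ := app_inj hv hx.2.1.2.1 hy.2.1.2.1 h
      obtain ⟨hc, ⟨hw, _⟩, hw', _⟩ := hx
      obtain ⟨hb, ⟨hu, _⟩, hu', _⟩ := hy
      subst h1
      subst h2
      rw [hw] at hu
      rw [hw'] at hu'
      subst hu
      subst hu'
      rfl
    · intro w hw
      simp only [Finset.mem_filter, mem_T] at hw
      obtain ⟨hw, hr, hj⟩ := hw
      have hS : S v w = 0 := by
        unfold S
        rw [hw, hk]
      obtain ⟨ρ, hle, hri, hirr, hS'⟩ := exists_decomp v hS hr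
      refine ⟨⟨(cont (tk ρ w), cont (dr ρ w)), (tk ρ w, dr ρ w)⟩, ?_, app_tk_dr ρ w⟩
      simp only [Finset.mem_sigma, Finset.HasAntidiagonal.mem_antidiagonal, Finset.mem_product,
        IrrSet, Finset.mem_filter, mem_T]
      refine ⟨?_, ⟨trivial, hirr, ?_⟩, trivial, hS'⟩
      · rw [← cont_app, app_tk_dr, hw]
      · change j ∉ ((w i).take (ρ i)).take r
        rw [List.take_take, min_eq_left hri]
        exact hj
  rw [← hcard, Finset.card_sigma]
  push_cast
  apply Finset.sum_congr rfl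
  intro c _
  rw [Finset.card_product]
  push_cast
  congr 1
  by_cases h0 : Vsum v c.2 = 0
  · simp only [h0, if_true, Finset.filter_true]
    exact card_T _
  · simp [h0]

/-- the quotient `φ_ij / φ_0`, explicitly -/
noncomputable def gg (v : Idx q → Fin d → ℤ) (i : Fin p) (j : Fin (q i)) :
    MvPowerSeries (Idx q) ℚ :=
  fun c => ∑ r ∈ Finset.range (∑ m, c ⟨i, m⟩), ((r : ℚ) + 1)⁻¹ * ((IrrSet v i j (r + 1) c).card : ℚ)

lemma IrrSet_empty_of_length {v : Idx q → Fin d → ℤ} {i : Fin p} {j : Fin (q i)} {r : ℕ}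
    {c : Idx q →₀ ℕ} (h : ∑ m, c ⟨i, m⟩ < r) : IrrSet v i j r c = ∅ := by
  classical
  unfold IrrSet
  rw [Finset.filter_eq_empty_iff]
  rintro w hw ⟨h1, _⟩
  have := h1.2.1
  rw [length_of_mem_T hw] at this
  omega

lemma IrrSet_empty_of_Vsum {v : Idx q → Fin d → ℤ} {i : Fin p} {j : Fin (q i)} {r : ℕ}
    {c : Idx q →₀ ℕ} (h : Vsum v c ≠ 0) : IrrSet v i j r c = ∅ := by
  classical
  unfold IrrSet
  rw [Finset.filter_eq_empty_iff]
  rintro w hw ⟨h1, _⟩
  apply h
  have := h1.1
  unfold S at this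
  rwa [mem_T.mp hw] at this

lemma gg_mul_phi0 {v : Idx q → Fin d → ℤ} (hv : Separated v) (i : Fin p) (j : Fin (q i)) :
    gg v i j * phi0 v = phi v ⟨i, j⟩ := by
  classical
  ext k
  rw [MvPowerSeries.coeff_mul]
  change ∑ c ∈ Finset.HasAntidiagonal.antidiagonal k, gg v i j c.1 *
      (if Vsum v c.2 = 0 then (C c.2 : ℚ) else 0) =
    if Vsum v k = 0 then (C k : ℚ) * (harmonic (∑ m, k ⟨i, m⟩) - harmonic (k ⟨i, j⟩)) else 0
  by_cases hk : Vsum v k = 0
  · rw [if_pos hk, ← sum_T_hj]
    set N := ∑ m, k ⟨i, m⟩ with hN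
    have e1 : ∑ w ∈ T k, hj j (w i) = ∑ r ∈ Finset.range N, ((r : ℚ) + 1)⁻¹ *
        (((T k).filter (fun w => r + 1 ≤ (w i).length ∧ j ∉ (w i).take (r + 1))).card : ℚ) := by
      have : ∀ w ∈ T k, hj j (w i) = ∑ r ∈ Finset.range N,
          if (r + 1 ≤ (w i).length ∧ j ∉ (w i).take (r + 1)) then ((r : ℚ) + 1)⁻¹ else 0 := by
        intro w hw
        unfold hj
        rw [length_of_mem_T hw]
        apply Finset.sum_congr rfl
        intro r hr
        rw [Finset.mem_range] at hr
        have hr' : r + 1 ≤ ∑ m, k ⟨i, m⟩ := hr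
        by_cases hj : j ∈ (w i).take (r + 1)
        · simp [hj]
        · simp [hj, hr']
      rw [Finset.sum_congr rfl this, Finset.sum_comm]
      apply Finset.sum_congr rfl
      intro r _
      rw [← Finset.sum_filter, Finset.sum_const, nsmul_eq_mul, mul_comm]
    rw [e1]
    have e2 : ∀ r ∈ Finset.range N, ((r : ℚ) + 1)⁻¹ *
        (((T k).filter (fun w => r + 1 ≤ (w i).length ∧ j ∉ (w i).take (r + 1))).card : ℚ) =
        ∑ c ∈ Finset.HasAntidiagonal.antidiagonal k, ((r : ℚ) + 1)⁻¹ * ((IrrSet v i j (r + 1) c.1).card : ℚ) *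
        (if Vsum v c.2 = 0 then (C c.2 : ℚ) else 0) := by
      intro r _
      rw [card_decomp hv i j (r + 1) k hk, Finset.mul_sum]
      apply Finset.sum_congr rfl
      intro c _
      ring
    rw [Finset.sum_congr rfl e2, Finset.sum_comm]
    apply Finset.sum_congr rfl
    intro c hc
    rw [Finset.HasAntidiagonal.mem_antidiagonal] at hc
    rw [← Finset.sum_mul]
    congr 1
    change ∑ r ∈ Finset.range (∑ m, c.1 ⟨i, m⟩), ((r : ℚ) + 1)⁻¹ *
      ((IrrSet v i j (r + 1) c.1).card : ℚ) = _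
    apply Finset.sum_subset
    · intro r hr
      rw [Finset.mem_range] at hr ⊢
      refine lt_of_lt_of_le hr ?_
      rw [hN]
      apply Finset.sum_le_sum
      intro m _
      rw [← hc]
      simp
    · intro r _ hr
      rw [Finset.mem_range, not_lt] at hr
      rw [IrrSet_empty_of_length (by omega)]
      simp
  · rw [if_neg hk]
    apply Finset.sum_eq_zero
    intro c hc
    rw [Finset.HasAntidiagonal.mem_antidiagonal] at hc
    by_cases h2 : Vsum v c.2 = 0
    · have h1 : Vsum v c.1 ≠ 0 := by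
        intro h1
        apply hk
        rw [← hc, Vsum_add, h1, h2, add_zero]
      have : gg v i j c.1 = 0 := by
        change ∑ r ∈ Finset.range (∑ m, c.1 ⟨i, m⟩), ((r : ℚ) + 1)⁻¹ *
          ((IrrSet v i j (r + 1) c.1).card : ℚ) = 0
        apply Finset.sum_eq_zero
        intro r _
        rw [IrrSet_empty_of_Vsum h1]
        simp
      rw [this, zero_mul]
    · rw [if_neg h2, mul_zero]

lemma constantCoeff_phi0_ne (v : Idx q → Fin d → ℤ) :
    MvPowerSeries.constantCoeff (phi0 v) ≠ 0 := by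
  rw [← MvPowerSeries.coeff_zero_eq_constantCoeff_apply]
  change (if Vsum v 0 = 0 then (C (0 : Idx q →₀ ℕ) : ℚ) else 0) ≠ 0
  have : Vsum v 0 = 0 := by
    unfold Vsum
    simp
  rw [if_pos this, ← card_T]
  have : (T (0 : Idx q →₀ ℕ)).Nonempty := by
    refine ⟨fun _ => [], ?_⟩
    rw [mem_T]
    ext ⟨i, j⟩
    rw [cont_apply]
    simp
  have := Finset.card_pos.mpr this
  positivity

theorem coeff_logPsi_nonneg {v : Idx q → Fin d → ℤ} (hv : Separated v) (ij : Idx q)
    (k : Idx q →₀ ℕ) : 0 ≤ MvPowerSeries.coeff k (logPsi v ij) := by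
  obtain ⟨i, j⟩ := ij
  unfold logPsi
  rw [← gg_mul_phi0 hv, mul_assoc, MvPowerSeries.mul_inv_cancel _ (constantCoeff_phi0_ne v),
    mul_one]
  change 0 ≤ ∑ r ∈ Finset.range (∑ m, k ⟨i, m⟩), ((r : ℚ) + 1)⁻¹ *
      ((IrrSet v i j (r + 1) k).card : ℚ)
  apply Finset.sum_nonneg
  intro r _
  positivity

end Pool.Agent.H89.Mirror
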